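import Pool.Agent.H3.Sch2

set_option autoImplicit false

namespace Pool.Agent.Results.MP_72bf7f_co.Zero

open Pool.Agent.H3.Sch Filter Topology

theorem result : Tendsto p atTop (𝓝 0) ∧ ∀ᶠ n : ℕ in atTop, p n ≤ (199 / 200) ^ n :=
  ⟨squeeze_zero' (Eventually.of_forall fun n => by unfold p; positivity) bound
    (tendsto_pow_atTop_nhds_zero_of_lt_one (by norm_num) (by norm_num)), bound⟩

end Pool.Agent.Results.MP_72bf7f_co.Zero
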